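import Pool.Agent.Helper15.RA.GoalsH

/-!
# Project RA, packet E1: cliques of syllables (length, permutations, replacement, merging).
-/

set_option autoImplicit false

namespace Pool.Agent.Helper7.RA

open Pool.Agent.Helper15.RA

variable {V W : Type} [Group W] {Γ : SimpleGraph V} {G : V → Subgroup W} {sl : W → ℕ}

theorem syl_le (P : GP Γ G sl) {v : V} {g : W} (hg : g ∈ G v) : sl g ≤ 1 := by
  by_cases h : g = 1
  · rw [h, P.one]
    exact Nat.zero_le 1
  · exact (P.syl v g hg h).le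

theorem desc_left (P : GP Γ G sl) {v : V} {h w : W} (hh : h ∈ G v) (h1 : h ≠ 1)
    (H : sl (h * w) ≠ sl w + 1) : ∃ b ∈ G v, b ≠ 1 ∧ sl (b * w) + 1 = sl w := by
  obtain ⟨g, hg, Hg⟩ := P.coset v w
  have hg1 : g ≠ 1 := by
    intro e
    rw [e, one_mul] at Hg
    exact H (Hg h hh h1)
  refine ⟨g, hg, hg1, ?_⟩
  have := Hg g⁻¹ ((G v).inv_mem hg) (inv_ne_one.2 hg1)
  rw [inv_mul_cancel_left] at this
  exact this.symm

theorem desc_right (P : GP Γ G sl) {v : V} {h w : W} (hh : h ∈ G v) (h1 : h ≠ 1)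
    (H : sl (w * h) ≠ sl w + 1) : ∃ b ∈ G v, b ≠ 1 ∧ sl (w * b) + 1 = sl w := by
  have H' : sl (h⁻¹ * w⁻¹) ≠ sl w⁻¹ + 1 := by
    rw [← mul_inv_rev, P.inv, P.inv]
    exact H
  obtain ⟨b, hb, hb1, hb2⟩ := desc_left P ((G v).inv_mem hh) (inv_ne_one.2 h1) H'
  refine ⟨b⁻¹, (G v).inv_mem hb, inv_ne_one.2 hb1, ?_⟩
  rw [← P.inv (w * b⁻¹), mul_inv_rev, inv_inv, hb2, P.inv]

theorem left_all (P : GP Γ G sl) {v : V} {g l w : W} (hg : g ∈ G v)
    (H : sl (g * w) = sl w + 1) (hl : l ∈ G v) (hl1 : l ≠ 1) : sl (l * w) = sl w + 1 := by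
  obtain ⟨m, hm, Hm⟩ := P.coset v w
  by_cases hm1 : m = 1
  · rw [hm1, one_mul] at Hm
    exact Hm l hl hl1
  · exfalso
    have h1 := Hm m⁻¹ ((G v).inv_mem hm) (inv_ne_one.2 hm1)
    rw [inv_mul_cancel_left] at h1
    by_cases hgm : g * m⁻¹ = 1
    · have : g = m := by
        rw [← mul_inv_eq_one]
        exact hgm
      rw [this] at H
      omega
    · have h2 := Hm (g * m⁻¹) ((G v).mul_mem hg ((G v).inv_mem hm)) hgm
      have h3 : g * m⁻¹ * (m * w) = g * w := by group
      rw [h3] at h2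
      omega

theorem right_all (P : GP Γ G sl) {v : V} {g l w : W} (hg : g ∈ G v)
    (H : sl (w * g) = sl w + 1) (hl : l ∈ G v) (hl1 : l ≠ 1) : sl (w * l) = sl w + 1 := by
  have H' : sl (g⁻¹ * w⁻¹) = sl w⁻¹ + 1 := by
    rw [← mul_inv_rev, P.inv, P.inv]
    exact H
  have := left_all P ((G v).inv_mem hg) H' ((G v).inv_mem hl) (inv_ne_one.2 hl1)
  rw [← mul_inv_rev, P.inv, P.inv] at this
  exact this

/-- the vertex of a nontrivial syllable is unique -/
theorem vertex_unique (P : GP Γ G sl) {u v : V} {k : W} (hk : k ≠ 1) (hu : k ∈ G u) (hv : k ∈ G v) :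
    u = v := by
  by_contra h
  exact hk (P.disj u v h k hu hv)

theorem clq_tail {k : W} {K : List W} (h : IsClq Γ G (k :: K)) : IsClq Γ G K :=
  ⟨fun l hl => h.1 l (List.mem_cons_of_mem _ hl), (List.pairwise_cons.1 h.2).2⟩

theorem clq_len (P : GP Γ G sl) (K : List W) (hK : IsClq Γ G K) :
    sl K.prod = K.length ∧ ∀ u, ∀ h ∈ G u, sl (h⁻¹ * K.prod) + 1 = sl K.prod →
      ∃ k ∈ K, k ∈ G u := by
  induction K with
  | nil =>
    refine ⟨P.one, fun u h _ H => ?_⟩
    rw [List.prod_nil, P.one] at H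
    omega
  | cons k K ih =>
    obtain ⟨ih1, ih2⟩ := ih (clq_tail hK)
    obtain ⟨hk1, v, hkv⟩ := hK.1 k List.mem_cons_self
    have hlen : sl (k * K.prod) = sl K.prod + 1 := by
      by_contra H
      obtain ⟨b, hb, hb1, hb2⟩ := desc_left P hkv hk1 H
      obtain ⟨l, hl, hlv⟩ := ih2 v b⁻¹ ((G v).inv_mem hb) (by rw [inv_inv]; exact hb2)
      obtain ⟨u1, u2, hadj, hku, hlu⟩ := (List.pairwise_cons.1 hK.2).1 l hl
      have hl1 : l ≠ 1 := (hK.1 l (List.mem_cons_of_mem _ hl)).1
      have e1 := vertex_unique P hk1 hku hkv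
      have e2 := vertex_unique P hl1 hlu hlv
      rw [e1, e2] at hadj
      exact hadj.ne rfl
    rw [List.prod_cons, List.length_cons]
    refine ⟨by rw [hlen, ih1], fun u h hh H => ?_⟩
    by_cases huv : u = v
    · exact ⟨k, List.mem_cons_self, huv ▸ hkv⟩
    · have h1 : sl (k⁻¹ * (k * K.prod)) + 1 = sl (k * K.prod) := by
        rw [inv_mul_cancel_left, hlen]
      obtain ⟨hadj, h2⟩ := P.dia u v huv h⁻¹ ((G u).inv_mem hh) k⁻¹ ((G v).inv_mem hkv) _ H h1
      have hc := P.comm u v hadj h⁻¹ ((G u).inv_mem hh) k hkv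
      have h3 : k⁻¹ * (h⁻¹ * (k * K.prod)) = h⁻¹ * K.prod := by
        rw [← mul_assoc h⁻¹, hc]
        group
      rw [h3, hlen] at h2
      obtain ⟨k', hk', hk'u⟩ := ih2 u h hh (by omega)
      exact ⟨k', List.mem_cons_of_mem _ hk', hk'u⟩

theorem clq_comm (P : GP Γ G sl) {K : List W} (hK : IsClq Γ G K) : K.Pairwise Commute :=
  hK.2.imp fun h => by
    obtain ⟨u, v, hadj, hk, hl⟩ := h
    exact P.comm u v hadj _ hk _ hl

theorem clq_perm (P : GP Γ G sl) {K K' : List W} (hK : IsClq Γ G K) (h : K.Perm K') :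
    IsClq Γ G K' ∧ K.prod = K'.prod := by
  refine ⟨⟨fun k hk => hK.1 k (h.mem_iff.2 hk), ?_⟩, h.prod_eq' (clq_comm P hK)⟩
  refine (h.pairwise_iff ?_).1 hK.2
  rintro a b ⟨u, v, hadj, ha, hb⟩
  exact ⟨v, u, hadj.symm, hb, ha⟩

/-- the longest reduced prefix of `y` -/
theorem prefix_exists (P : GP Γ G sl) (n : ℕ) : ∀ (z y : W), sl y = n → sl (z * y) ≠ sl z + sl y →
    ∃ (y₁ : W) (u : V) (k y₂ : W), k ∈ G u ∧ k ≠ 1 ∧ y = y₁ * k * y₂ ∧ sl y = sl y₁ + 1 + sl y₂ ∧
      sl (z * y₁) = sl z + sl y₁ ∧ sl (z * y₁ * k) ≠ sl (z * y₁) + 1 := by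
  induction n with
  | zero =>
    intro z y hy H
    have hy1 : y = 1 := by
      by_contra h
      obtain ⟨v, g, _, _, h2⟩ := P.gen y h
      omega
    exact absurd (by rw [hy1, mul_one, P.one, add_zero]) H
  | succ n ih =>
    intro z y hy H
    have hy1 : y ≠ 1 := by
      intro h
      rw [h, P.one] at hy
      omega
    obtain ⟨v, k₀, hk₀, hk₀1, h2⟩ := P.gen y hy1
    obtain ⟨y', rfl⟩ : ∃ y', y = k₀ * y' := ⟨k₀⁻¹ * y, by group⟩
    rw [inv_mul_cancel_left] at h2
    by_cases hz : sl (z * k₀) = sl z + 1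
    · have H' : sl (z * k₀ * y') ≠ sl (z * k₀) + sl y' := by
        rw [hz, mul_assoc]
        omega
      obtain ⟨y₁, u, k, y₂, hk, hk1, hy', hs, hz1, hz2⟩ := ih (z * k₀) y' (by omega) H'
      have e1 : sl (k₀ * y') ≤ sl (k₀ * y₁) + 1 + sl y₂ := by
        rw [hy']
        have e : k₀ * (y₁ * k * y₂) = k₀ * y₁ * k * y₂ := by group
        rw [e]
        have a1 := P.mul (k₀ * y₁ * k) y₂
        have a2 := P.mul (k₀ * y₁) k
        have a3 := syl_le P hk
        omega
      have e2 : sl (k₀ * y₁) ≤ 1 + sl y₁ := by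
        have a1 := P.mul k₀ y₁
        have a3 := syl_le P hk₀
        omega
      refine ⟨k₀ * y₁, u, k, y₂, hk, hk1, ?_, by omega, ?_, ?_⟩
      · rw [hy']
        group
      · rw [← mul_assoc, hz1, hz]
        omega
      · rw [← mul_assoc]
        exact hz2
    · refine ⟨1, v, k₀, y', hk₀, hk₀1, by rw [one_mul], ?_, ?_, ?_⟩
      · rw [P.one]
        omega
      · rw [mul_one, P.one, add_zero]
      · rw [mul_one]
        exact hz

theorem list_comm {K : List W} {h : W} (H : ∀ k ∈ K, h * k = k * h) : h * K.prod = K.prod * h := by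
  induction K with
  | nil => rw [List.prod_nil, one_mul, mul_one]
  | cons k K ih =>
    rw [List.prod_cons, ← mul_assoc, H k List.mem_cons_self, mul_assoc,
      ih fun l hl => H l (List.mem_cons_of_mem _ hl), mul_assoc]

theorem merge (P : GP Γ G sl) (h0 : E_0) (K : List W) (x y : W) (hK : IsClq Γ G K)
    (hx : sl (x * K.prod) = sl x + K.length) (hy : sl (K.prod * y) = K.length + sl y)
    (H : sl (x * K.prod * y) ≠ sl x + K.length + sl y) :
    ∃ (u : V) (x' g h y' : W), g ∈ G u ∧ g ≠ 1 ∧ h ∈ G u ∧ h ≠ 1 ∧ x = x' * g ∧ sl x = sl x' + 1 ∧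
      y = h * y' ∧ sl y = sl y' + 1 ∧ ∀ k ∈ K, ∃ v, Γ.Adj u v ∧ k ∈ G v := by
  obtain ⟨y₁, u, k, y₂, hk, hk1, hyy, hs, hz1, hz2⟩ :=
    prefix_exists P (sl y) (x * K.prod) y rfl (by rw [hx]; exact H)
  have hKl := (clq_len P K hK).1
  -- `d . y₁ . k` is reduced
  have hdyk : sl (K.prod * y₁ * k) = K.length + sl y₁ + 1 := by
    have a1 : sl (K.prod * y) ≤ sl (K.prod * y₁ * k) + sl y₂ := by
      have e : K.prod * y = K.prod * y₁ * k * y₂ := by
        rw [hyy]
        group
      rw [e]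
      exact P.mul _ _
    have a2 := P.mul (K.prod * y₁) k
    have a3 := P.mul K.prod y₁
    have a4 := syl_le P hk
    omega
  have hdy : sl (K.prod * y₁) = K.length + sl y₁ := by
    have a2 := P.mul (K.prod * y₁) k
    have a3 := P.mul K.prod y₁
    have a4 := syl_le P hk
    omega
  obtain ⟨b, hb, hb1, hb2⟩ := desc_right P hk hk1 hz2
  obtain ⟨c1, c2, c3⟩ := h0 V W Γ G sl P u x (K.prod * y₁) b hb hb1
    (by rw [← mul_assoc, hz1, hx, hdy]; omega)
    (by rw [← mul_assoc]; exact hb2)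
    (fun h hh hh1 => right_all P hk (by rw [hdyk, hdy]) hh hh1)
  have hadj : ∀ k' ∈ K, ∃ v, Γ.Adj u v ∧ k' ∈ G v := by
    intro k' hk'
    obtain ⟨s, t, hst⟩ := List.append_of_mem hk'
    obtain ⟨hk'1, v, hv⟩ := hK.1 k' hk'
    refine ⟨v, ?_, hv⟩
    have hKs : IsClq Γ G s := by
      refine ⟨fun l hl => hK.1 l ?_, ?_⟩
      · rw [hst]
        exact List.mem_append_left _ hl
      · have := hK.2
        rw [hst] at this
        exact (List.pairwise_append.1 this).1
    have hKt : IsClq Γ G t := by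
      refine ⟨fun l hl => hK.1 l ?_, ?_⟩
      · rw [hst]
        exact List.mem_append_right _ (List.mem_cons_of_mem _ hl)
      · have := hK.2
        rw [hst] at this
        exact (List.pairwise_cons.1 (List.pairwise_append.1 this).2.1).2
    have ls := (clq_len P s hKs).1
    have lt := (clq_len P t hKt).1
    have hprod : K.prod * y₁ = s.prod * k' * (t.prod * y₁) := by
      rw [hst, List.prod_append, List.prod_cons]
      group
    have hlen : K.length = s.length + 1 + t.length := by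
      rw [hst, List.length_append, List.length_cons]
      omega
    have b1 : sl (K.prod * y₁) ≤ s.length + 1 + sl (t.prod * y₁) := by
      rw [hprod]
      have a1 := P.mul (s.prod * k') (t.prod * y₁)
      have a2 := P.mul s.prod k'
      have a3 := syl_le P hv
      omega
    have b2 := P.mul t.prod y₁
    refine c3 s.prod k' (t.prod * y₁) v hv hk'1 hprod ?_
    omega
  have hcd : ∀ h ∈ G u, h * K.prod = K.prod * h := by
    intro h hh
    refine list_comm fun k' hk' => ?_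
    obtain ⟨v, hv, hv'⟩ := hadj k' hk'
    exact P.comm u v hv h hh k' hv'
  have hky : k * y₁ = y₁ * k := by
    have a1 := c1 k hk
    have a2 := hcd k hk
    rw [← mul_assoc, a2, mul_assoc, mul_assoc] at a1
    exact mul_left_cancel a1
  refine ⟨u, x * b, b⁻¹, k, y₁ * y₂, (G u).inv_mem hb, inv_ne_one.2 hb1, hk, hk1, by group,
    c2.symm, ?_, ?_, hadj⟩
  · rw [hyy, ← hky]
    group
  · have a1 := P.mul y₁ y₂
    have a2 : sl y ≤ 1 + sl (y₁ * y₂) := by
      have e : y = k * (y₁ * y₂) := by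
        rw [hyy, ← hky]
        group
      rw [e]
      have a3 := P.mul k (y₁ * y₂)
      have a4 := syl_le P hk
      omega
    omega

theorem replace (P : GP Γ G sl) (h0 : E_0) (u : V) (k l x y : W) (hk : k ∈ G u)
    (hl : l ∈ G u) (hl1 : l ≠ 1) (H : sl (x * k * y) = sl x + 1 + sl y) :
    sl (x * l * y) = sl x + 1 + sl y := by
  have hxk : sl (x * k) = sl x + 1 := by
    have a1 := P.mul (x * k) y
    have a2 := P.mul x k
    have a3 := syl_le P hk
    omega
  have hky : sl (k * y) = sl y + 1 := by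
    have a1 := P.mul x (k * y)
    rw [← mul_assoc] at a1
    have a2 := P.mul k y
    have a3 := syl_le P hk
    omega
  have hxl := right_all P hk hxk hl hl1
  have hly := left_all P hk hky hl hl1
  by_contra hne
  have hclq : IsClq Γ G [l] := by
    refine ⟨fun l' hl' => ?_, List.pairwise_singleton _ _⟩
    rw [List.mem_singleton] at hl'
    rw [hl']
    exact ⟨hl1, u, hl⟩
  have hp : [l].prod = l := List.prod_singleton
  obtain ⟨u', x', g, h, y', hg, _, hh, _, hx, hsx, hy, hsy, hadj⟩ := merge P h0 [l] x y hclq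
    (by rw [hp, hxl]; rfl) (by rw [hp, hly, List.length_singleton]; omega)
    (by rw [hp, List.length_singleton]; exact hne)
  obtain ⟨v, huv, hlv⟩ := hadj l (List.mem_singleton.2 rfl)
  have e := vertex_unique P hl1 hlv hl
  rw [e] at huv
  have hc := P.comm u' u huv g hg k hk
  have e2 : x * k * y = x' * k * (g * h) * y' := by
    rw [hx, hy]
    calc x' * g * k * (h * y') = x' * (g * k) * h * y' := by group
      _ = x' * k * (g * h) * y' := by
        rw [hc]
        group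
  have a1 := P.mul (x' * k * (g * h)) y'
  have a2 := P.mul (x' * k) (g * h)
  have a3 := P.mul x' k
  have a4 := syl_le P hk
  have a5 := syl_le P ((G u').mul_mem hg hh)
  rw [e2] at H
  omega

theorem h_e1 (h0 : E_0) : E_1 := by
  intro V W _ Γ G sl P
  exact ⟨fun K hK => (clq_len P K hK).1, fun K K' hK h => clq_perm P hK h,
    fun u k l x y hk _ hl hl1 H => replace P h0 u k l x y hk hl hl1 H,
    fun K x y hK hx hy H => merge P h0 K x y hK hx hy H⟩

end Pool.Agent.Helper7.RA
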